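import Mathlib
import Pool.Agent.R906.DPFin

set_option autoImplicit false

/-!
# Dyson-Phillips terms of unbounded positive perturbations: compactness does not propagate
-/

namespace Pool.Agent.Results.MP_c2298c_an.ThirdTermNotCompact

open Pool.Agent.R906.DP

/-- On the real space `ℓ¹(ℕ × ℕ)` (the `L¹` space of the counting measure on `ℕ × ℕ`), with its
cone of nonnegative elements, there are a substochastic `C₀`-semigroup `U` with generator `T`, and
a positive `T`-bounded operator `B` on the domain of `T` such that the spectral radius of
`B (μ - T)⁻¹` is less than `1` for all large `μ`, for which the Dyson-Phillips terms `Us j t`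
satisfy: `Us 1 t` is weakly compact (and even compact) for every `t ≥ 0`, but `Us 3 1` is not
compact. -/
theorem result : Counterexample (lp (fun _ : ℕ × ℕ => ℝ) 1) {φ | ∀ i, 0 ≤ φ i} :=
  main

end Pool.Agent.Results.MP_c2298c_an.ThirdTermNotCompact
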